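import Mathlib

set_option autoImplicit false
set_option maxHeartbeats 400000

namespace Pool.Agent.Results.MP_fc7805_al.RankTwo

/-- intervals `[p,q]` with `p < q` -/
abbrev Gen (n : ℕ) : Type := {a : Fin n × Fin n // a.1 < a.2}

/-- The defining relators of the cactus group. -/
def rels (n : ℕ) : Set (FreeGroup (Gen n)) :=
  {r | (∃ a, r = FreeGroup.of a * FreeGroup.of a) ∨
    (∃ a b : Gen n, (a.1.2 < b.1.1 ∨ b.1.2 < a.1.1) ∧
      r = FreeGroup.of a * FreeGroup.of b * (FreeGroup.of b * FreeGroup.of a)⁻¹) ∨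
    (∃ a b c : Gen n, a.1.1 ≤ b.1.1 ∧ b.1.2 ≤ a.1.2 ∧
      c.1.1.val + b.1.2.val = a.1.1.val + a.1.2.val ∧
      c.1.2.val + b.1.1.val = a.1.1.val + a.1.2.val ∧
      r = FreeGroup.of a * FreeGroup.of b * (FreeGroup.of c * FreeGroup.of a)⁻¹)}

/-- The cactus group. -/
abbrev J (n : ℕ) : Type := PresentedGroup (rels n)

abbrev D := DihedralGroup 0

section general
variable {S : Type} (ρ : Gen 5 → S → S) (t : Gen 5 → S → D)

def P (h : ∀ a s, ρ a (ρ a s) = s ∧ t a (ρ a s) * t a s = 1) (a : Gen 5) : Equiv.Perm (S × D) where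
  toFun x := (ρ a x.1, t a x.1 * x.2)
  invFun x := (ρ a x.1, t a x.1 * x.2)
  left_inv x := by simp [(h a x.1).1, ← mul_assoc, (h a x.1).2]
  right_inv x := by simp [(h a x.1).1, ← mul_assoc, (h a x.1).2]

def hom (h : ∀ a s, ρ a (ρ a s) = s ∧ t a (ρ a s) * t a s = 1)
    (h2 : ∀ a b : Gen 5, (a.1.2 < b.1.1 ∨ b.1.2 < a.1.1) → ∀ s,
      ρ a (ρ b s) = ρ b (ρ a s) ∧ t a (ρ b s) * t b s = t b (ρ a s) * t a s)
    (h3 : ∀ a b c : Gen 5, (a.1.1 ≤ b.1.1 ∧ b.1.2 ≤ a.1.2 ∧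
      c.1.1.val + b.1.2.val = a.1.1.val + a.1.2.val ∧
      c.1.2.val + b.1.1.val = a.1.1.val + a.1.2.val) → ∀ s,
      ρ a (ρ b s) = ρ c (ρ a s) ∧ t a (ρ b s) * t b s = t c (ρ a s) * t a s) :
    J 5 →* Equiv.Perm (S × D) :=
  PresentedGroup.toGroup (f := P ρ t h) (by
    rintro r (⟨a, rfl⟩ | ⟨a, b, hab, rfl⟩ | ⟨a, b, c, k1, k2, k3, k4, rfl⟩)
    · simp only [map_mul, FreeGroup.lift_apply_of]
      ext1 x
      exact (P ρ t h a).left_inv x
    · simp only [map_mul, map_inv, FreeGroup.lift_apply_of, mul_inv_eq_one]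
      ext1 x
      simp [P, (h2 a b hab x.1).1, ← mul_assoc, (h2 a b hab x.1).2]
    · simp only [map_mul, map_inv, FreeGroup.lift_apply_of, mul_inv_eq_one]
      ext1 x
      simp [P, (h3 a b c ⟨k1, k2, k3, k4⟩ x.1).1, ← mul_assoc, (h3 a b c ⟨k1, k2, k3, k4⟩ x.1).2])

theorem transl (Q : Equiv.Perm (S × D)) (s : S) (c : D) (hQ : ∀ d, Q (s, d) = (s, c * d)) (n : ℤ) :
    ∀ d, (Q ^ n) (s, d) = (s, c ^ n * d) := by
  have hQ' : ∀ d, Q⁻¹ (s, d) = (s, c⁻¹ * d) := by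
    intro d
    rw [Equiv.Perm.inv_eq_iff_eq, hQ, mul_inv_cancel_left]
  induction n using Int.induction_on with
  | zero => simp
  | succ n ih => intro d; rw [zpow_add_one, zpow_add_one, Equiv.Perm.mul_apply, hQ, ih, mul_assoc]
  | pred n ih => intro d; rw [zpow_sub_one, zpow_sub_one, Equiv.Perm.mul_apply, hQ', ih, mul_assoc]

end general

def rev (a : Gen 5) (i : Fin 5) : Fin 5 := if a.1.1 ≤ i ∧ i ≤ a.1.2 then a.1.1 + a.1.2 - i else i

def ρ1 (a : Gen 5) (s : Fin 5 × Fin 5 × Fin 5) : Fin 5 × Fin 5 × Fin 5 :=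
  (rev a s.1, rev a s.2.1, rev a s.2.2)

def adj (a : Gen 5) (i j : Fin 5) : Bool :=
  a.1.1.val + 1 = a.1.2.val ∧ ((i = a.1.1 ∧ j = a.1.2) ∨ (j = a.1.1 ∧ i = a.1.2))

def t1 (a : Gen 5) (s : Fin 5 × Fin 5 × Fin 5) : D :=
  if adj a s.1 s.2.1 then .sr 0 else if adj a s.2.1 s.2.2 then .sr 1 else 1

def ρ2 (a : Gen 5) (s : Fin 5 × Fin 5) : Fin 5 × Fin 5 := (rev a s.1, rev a s.2)

def out (a : Gen 5) (i : Fin 5) : Bool := a.1.1.val + 3 = a.1.2.val ∧ (i < a.1.1 ∨ a.1.2 < i)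

def t2 (a : Gen 5) (s : Fin 5 × Fin 5) : D :=
  if out a s.1 then .sr 0 else if out a s.2 then .sr 1 else 1

def φ1 : J 5 →* Equiv.Perm ((Fin 5 × Fin 5 × Fin 5) × D) :=
  hom ρ1 t1 (by decide +kernel) (by decide +kernel) (by decide +kernel)

def φ2 : J 5 →* Equiv.Perm ((Fin 5 × Fin 5) × D) :=
  hom ρ2 t2 (by decide +kernel) (by decide +kernel) (by decide +kernel)

def s (p q : Fin 5) (h : p < q) : J 5 := PresentedGroup.of ⟨(p, q), h⟩

theorem φ1_s (p q : Fin 5) (h : p < q) (x) (d : D) :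
    φ1 (s p q h) (x, d) = (ρ1 ⟨(p, q), h⟩ x, t1 ⟨(p, q), h⟩ x * d) := by
  rw [s, φ1, hom, PresentedGroup.toGroup.of]; rfl

theorem φ2_s (p q : Fin 5) (h : p < q) (x) (d : D) :
    φ2 (s p q h) (x, d) = (ρ2 ⟨(p, q), h⟩ x, t2 ⟨(p, q), h⟩ x * d) := by
  rw [s, φ2, hom, PresentedGroup.toGroup.of]; rfl

theorem rel_dis (p q m r : Fin 5) (h : p < q) (h' : m < r) (k : q < m ∨ r < p) :
    s p q h * s m r h' = s m r h' * s p q h := by
  have := PresentedGroup.one_of_mem (rels := rels 5) (Or.inr (Or.inl ⟨⟨(p, q), h⟩, ⟨(m, r), h'⟩, k, rfl⟩))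
  simp only [map_mul, map_inv, mul_inv_eq_one] at this
  exact this

theorem rel_nes (p q m r u v : Fin 5) (h : p < q) (h' : m < r) (h'' : u < v)
    (k : p ≤ m ∧ r ≤ q ∧ u.val + r.val = p.val + q.val ∧ v.val + m.val = p.val + q.val) :
    s p q h * s m r h' = s u v h'' * s p q h := by
  have := PresentedGroup.one_of_mem (rels := rels 5) (Or.inr (Or.inr
    ⟨⟨(p, q), h⟩, ⟨(m, r), h'⟩, ⟨(u, v), h''⟩, k.1, k.2.1, k.2.2.1, k.2.2.2, rfl⟩))
  simp only [map_mul, map_inv, mul_inv_eq_one] at this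
  exact this

def g : J 5 := s 3 4 (by decide) * (s 0 3 (by decide) * (s 1 4 (by decide) * (s 0 1 (by decide) * (s 1 4 (by decide) * s 0 3 (by decide)))))
def h : J 5 := s 0 1 (by decide) * s 1 2 (by decide)

theorem comm : Commute h g := by
  have c1 : SemiconjBy g (s 0 1 (by decide)) (s 0 1 (by decide)) := by
    unfold g
    refine SemiconjBy.mul_left (y := s 0 1 (by decide)) (rel_dis _ _ _ _ _ _ (by decide)) ?_
    refine SemiconjBy.mul_left (y := s 2 3 (by decide)) (rel_nes _ _ _ _ _ _ _ _ _ (by decide)) ?_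
    refine SemiconjBy.mul_left (y := s 2 3 (by decide)) (rel_nes _ _ _ _ _ _ _ _ _ (by decide)) ?_
    refine SemiconjBy.mul_left (y := s 2 3 (by decide)) (rel_dis _ _ _ _ _ _ (by decide)) ?_
    refine SemiconjBy.mul_left (y := s 2 3 (by decide)) (rel_nes _ _ _ _ _ _ _ _ _ (by decide)) ?_
    exact rel_nes _ _ _ _ _ _ _ _ _ (by decide)
  have c2 : SemiconjBy g (s 1 2 (by decide)) (s 1 2 (by decide)) := by
    unfold g
    refine SemiconjBy.mul_left (y := s 1 2 (by decide)) (rel_dis _ _ _ _ _ _ (by decide)) ?_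
    refine SemiconjBy.mul_left (y := s 1 2 (by decide)) (rel_nes _ _ _ _ _ _ _ _ _ (by decide)) ?_
    refine SemiconjBy.mul_left (y := s 3 4 (by decide)) (rel_nes _ _ _ _ _ _ _ _ _ (by decide)) ?_
    refine SemiconjBy.mul_left (y := s 3 4 (by decide)) (rel_dis _ _ _ _ _ _ (by decide)) ?_
    refine SemiconjBy.mul_left (y := s 1 2 (by decide)) (rel_nes _ _ _ _ _ _ _ _ _ (by decide)) ?_
    exact rel_nes _ _ _ _ _ _ _ _ _ (by decide)
  exact Commute.mul_left (Commute.symm c1) (Commute.symm c2)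

theorem a1 (d : D) : φ2 h ((3, 4), d) = ((3, 4), 1 * d) := by
  simp only [h, map_mul, Equiv.Perm.mul_apply, φ2_s, ← mul_assoc]
  congr 1

theorem a2 (d : D) : φ2 g ((3, 4), d) = ((3, 4), DihedralGroup.r 2 * d) := by
  simp only [g, map_mul, Equiv.Perm.mul_apply, φ2_s, ← mul_assoc]
  congr 1

theorem a3 (d : D) : φ1 (h ^ 3) ((0, 1, 2), d) = ((0, 1, 2), DihedralGroup.r 2 * d) := by
  simp only [h, pow_succ, pow_zero, one_mul, map_mul, Equiv.Perm.mul_apply, φ1_s, ← mul_assoc]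
  congr 1

theorem rz (c n : ℤ) (hc : c ≠ 0) (e : (DihedralGroup.r c : D) ^ n = 1) : n = 0 := by
  rw [DihedralGroup.r_zpow, DihedralGroup.one_def] at e
  have e' : c * n = 0 := DihedralGroup.r.inj e
  exact (mul_eq_zero.1 e').resolve_left hc

theorem result : ∃ n k : ℕ, 2 ≤ n ∧ n / 3 < k ∧
    ∃ f : Multiplicative (Fin k → ℤ) →* J n, Function.Injective f := by
  refine ⟨5, 2, by norm_num, by norm_num, ⟨⟨fun v => h ^ (v.toAdd 0) * g ^ (v.toAdd 1), by simp⟩, ?_⟩, ?_⟩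
  · intro u v
    simp only [toAdd_mul, Pi.add_apply, zpow_add]
    have := (comm.zpow_zpow (v.toAdd 0) (u.toAdd 1)).eq
    simp only [mul_assoc]
    rw [← mul_assoc (h ^ (v.toAdd 0)), this, mul_assoc]
  · rw [injective_iff_map_eq_one]
    intro v hv
    have hv' : h ^ (v.toAdd 0) * g ^ (v.toAdd 1) = 1 := hv
    have e1 := congrArg (fun x => φ2 x ((3, 4), 1)) hv'
    simp only [map_mul, map_zpow, Equiv.Perm.mul_apply, transl _ _ _ a2, transl _ _ _ a1, one_zpow,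
      one_mul, mul_one, map_one, Equiv.Perm.one_apply, Prod.mk.injEq, true_and] at e1
    have b0 := rz 2 _ (by norm_num) e1
    rw [b0, zpow_zero, mul_one] at hv'
    have hv3 : (h ^ 3) ^ (v.toAdd 0) = 1 := by
      rw [← zpow_natCast, ← zpow_mul, mul_comm, zpow_mul, hv', one_zpow]
    have e2 := congrArg (fun x => φ1 x ((0, 1, 2), 1)) hv3
    simp only [map_zpow, transl _ _ _ a3, mul_one, map_one, Equiv.Perm.one_apply, Prod.mk.injEq,
      true_and] at e2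
    have a0 := rz 2 _ (by norm_num) e2
    apply Multiplicative.toAdd.injective
    funext i
    fin_cases i
    · exact a0
    · exact b0

end Pool.Agent.Results.MP_fc7805_al.RankTwo
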